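import Pool.Agent.T2h66.LL.Stm

/-!
# The quotient `𝔸 / (K + U)` is finite
-/

set_option autoImplicit false

noncomputable section

open scoped Polynomial WithZero
open IsDedekindDomain WithZero

namespace Pool.Agent.T3H29.LL

open Pool.Agent.T2h66.LL

lemma aF_le (a : A) (v : Pl) : Valued.v ((aF a) v) ≤ 1 := by
  have h : (aF a) v = ((algebraMap A K a : K) : Kv v) := rfl
  rw [h, HeightOneSpectrum.valuedAdicCompletion_eq_valuation']
  exact HeightOneSpectrum.valuation_le_one v a

lemma finite_degreeLT (n : ℕ) : Finite (Polynomial.degreeLT (ZMod 2) n) :=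
  Finite.of_equiv _ (Polynomial.degreeLTEquiv (ZMod 2) n).symm.toEquiv

theorem t_FQ : S_AP → S_AQ → S_IF → S_TP → S_FQ := by
  intro hAP hAQ hIF hTP U hU
  obtain ⟨-, -, -, hTP4, -⟩ := hTP
  obtain ⟨N, hN, r, hUr⟩ := hTP4 U hU
  obtain ⟨hpI, -, hIF3, hIF4⟩ := hIF
  have htI : Valued.v ((tI : Kiˣ) : Ki) = exp (1 : ℤ) := by
    have h1 : (tI : Kiˣ) = pI⁻¹ := by unfold pI; rw [inv_inv]
    rw [h1, Units.val_inv_eq_inv_val, map_inv₀, hpI, ← exp_neg, neg_neg]
  have htIr : ∀ m : ℕ, Valued.v (((tI ^ m : Kiˣ) : Ki)) = exp (m : ℤ) := by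
    intro m
    rw [Units.val_pow_eq_pow_val, map_pow, htI, ← exp_nsmul]
    congr 1
    simp
  -- the representatives
  let T := Polynomial.degreeLT (ZMod 2) (N.natDegree + 1) × Polynomial.degreeLT (ZMod 2) (r + 1)
  have : Finite T := by
    have := finite_degreeLT (N.natDegree + 1)
    have := finite_degreeLT (r + 1)
    exact inferInstanceAs (Finite (_ × _))
  let f : T → (Af × Ki) ⧸ (KK ⊔ U) := fun p =>
    QuotientAddGroup.mk (aF (p.1 : A), aI (p.2 : A) * ((tI ^ r : Kiˣ)⁻¹ : Kiˣ))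
  refine Finite.of_surjective f ?_
  intro x
  obtain ⟨x, rfl⟩ := QuotientAddGroup.mk_surjective x
  -- first reduction
  obtain ⟨c, hc⟩ := hAQ.2 x.1
  obtain ⟨b, hb⟩ := hIF3 (x.2 - algebraMap K Ki c)
  have hKK : ∀ k : K, (algebraMap K Af k, algebraMap K Ki k) ∈ KK := fun k => ⟨k, rfl⟩
  set k : K := c + algebraMap A K b with hk
  set z : Af × Ki := (x.1 - algebraMap K Af k, x.2 - algebraMap K Ki k) with hz
  have hz1 : ∀ v : Pl, Valued.v (z.1 v) ≤ 1 := by
    intro v
    have h1 : z.1 v = (x.1 - algebraMap K Af c) v - (aF b) v := by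
      have : z.1 = (x.1 - algebraMap K Af c) - aF b := by
        rw [hz]
        simp only
        rw [hk, map_add]
        unfold aF
        simp only [RingHom.comp_apply]
        ring
      rw [this]
      rfl
    rw [h1]
    exact (Valuation.map_sub _ _ _).trans (max_le (hc v) (aF_le b v))
  have hz2 : Valued.v z.2 < 1 := by
    have : z.2 = (x.2 - algebraMap K Ki c) - aI b := by
      rw [hz]
      simp only
      rw [hk, map_add]
      unfold aI
      simp only [RingHom.comp_apply]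
      ring
    rw [this]
    exact hb
  -- second reduction
  obtain ⟨a, ha⟩ := hAP z.1 N hN hz1
  obtain ⟨a', ha'⟩ := hIF3 (((tI ^ r : Kiˣ) : Ki) * z.2)
  have hdeg : (a % N) ∈ Polynomial.degreeLT (ZMod 2) (N.natDegree + 1) := by
    rw [Polynomial.mem_degreeLT]
    refine (Polynomial.degree_mod_lt a hN).trans_le ?_
    rw [Polynomial.degree_eq_natDegree hN]
    exact_mod_cast Nat.le_succ _
  have hdeg' : a' ∈ Polynomial.degreeLT (ZMod 2) (r + 1) := by
    rw [Polynomial.mem_degreeLT]
    by_cases h0 : a' = 0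
    · rw [h0, Polynomial.degree_zero]
      exact WithBot.bot_lt_coe _
    · rw [Polynomial.degree_eq_natDegree h0]
      have h1 := hIF4 a' h0
      have h2 : Valued.v (aI a') ≤ exp (r : ℤ) := by
        have h3 : aI a' = ((tI ^ r : Kiˣ) : Ki) * z.2 - (((tI ^ r : Kiˣ) : Ki) * z.2 - aI a') := by ring
        rw [h3]
        refine (Valuation.map_sub _ _ _).trans (max_le ?_ ?_)
        · rw [map_mul, htIr]
          exact mul_le_of_le_one_right' hz2.le
        · refine ha'.le.trans ?_
          rw [← exp_zero]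
          exact exp_le_exp.2 (by positivity)
      rw [h1] at h2
      have h4 : (a'.natDegree : ℤ) ≤ r := exp_le_exp.1 h2
      have h5 : a'.natDegree < r + 1 := by omega
      exact_mod_cast h5
  refine ⟨(⟨a % N, hdeg⟩, ⟨a', hdeg'⟩), ?_⟩
  show QuotientAddGroup.mk (aF (a % N), aI a' * ((tI ^ r : Kiˣ)⁻¹ : Kiˣ)) = QuotientAddGroup.mk x
  rw [QuotientAddGroup.eq]
  set w : Af × Ki := (aF (a % N), aI a' * ((tI ^ r : Kiˣ)⁻¹ : Kiˣ)) with hw
  have hxz : -w + x = (algebraMap K Af k, algebraMap K Ki k) + (z - w) := by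
    rw [hz]
    ext1
    · simp only [Prod.fst_add, Prod.fst_neg, Prod.fst_sub]; ring
    · simp only [Prod.snd_add, Prod.snd_neg, Prod.snd_sub]; ring
  rw [hxz]
  refine AddSubgroup.add_mem_sup (hKK k) (hUr (z - w) ?_ ?_)
  · intro v
    have h1 : (z - w).1 v = (z.1 - aF a) v + (aF N) v * (aF (a / N)) v := by
      have h2 : (z - w).1 = (z.1 - aF a) + aF N * aF (a / N) := by
        rw [hw, Prod.fst_sub]
        simp only
        have h3 : aF a = aF N * aF (a / N) + aF (a % N) := by
          rw [← map_mul, ← map_add, EuclideanDomain.div_add_mod]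
        rw [h3]
        ring
      rw [h2]
      rfl
    rw [h1]
    refine (Valuation.map_add _ _ _).trans (max_le (ha v) ?_)
    rw [map_mul]
    exact mul_le_of_le_one_right' (aF_le _ v)
  · have h1 : (z - w).2 = (((tI ^ r : Kiˣ)⁻¹ : Kiˣ) : Ki) * (((tI ^ r : Kiˣ) : Ki) * z.2 - aI a') := by
      rw [hw, Prod.snd_sub]
      simp only
      rw [mul_sub, ← mul_assoc, Units.inv_mul, one_mul]
      ring
    rw [h1, map_mul, Units.val_inv_eq_inv_val, map_inv₀, htIr, ← exp_neg]
    exact mul_le_of_le_one_right' ha'.le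

end Pool.Agent.T3H29.LL
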