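import Pool.Agent.T2h66.LL.Stm

/-!
# Eigenfunctions of level one of `T_∞` with the eigenvalue `3` are constant
-/

set_option autoImplicit false

noncomputable section

open scoped Polynomial WithZero
open IsDedekindDomain WithZero

namespace Pool.Agent.T3H29.LL

open Pool.Agent.T2h66.LL

lemma aF_le' (a : A) (v : Pl) : Valued.v ((aF a) v) ≤ 1 := by
  have h : (aF a) v = ((algebraMap A K a : K) : Kv v) := rfl
  rw [h, HeightOneSpectrum.valuedAdicCompletion_eq_valuation']
  exact HeightOneSpectrum.valuation_le_one v a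

section mats

variable {R S : Type} [CommRing R] [CommRing S]

lemma om_val : ((om : GL (Fin 2) R) : Matrix (Fin 2) (Fin 2) R) = !![0, 1; 1, 0] := rfl

lemma nU_val (x : R) : ((nU x : GL (Fin 2) R) : Matrix (Fin 2) (Fin 2) R) = !![1, x; 0, 1] := rfl

lemma da_val (a : Rˣ) : ((da a : GL (Fin 2) R) : Matrix (Fin 2) (Fin 2) R) = !![(a : R), 0; 0, 1] := rfl

lemma sc_val (a : Rˣ) : ((sc a : GL (Fin 2) R) : Matrix (Fin 2) (Fin 2) R) = !![(a : R), 0; 0, (a : R)] := rfl

lemma map_om (f : R →+* S) : Matrix.GeneralLinearGroup.map f (om : GL (Fin 2) R) = om := by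
  apply Units.ext
  ext i j
  rw [Matrix.GeneralLinearGroup.map_apply, om_val, om_val]
  fin_cases i <;> fin_cases j <;> simp

lemma map_nU (f : R →+* S) (x : R) :
    Matrix.GeneralLinearGroup.map f (nU x : GL (Fin 2) R) = nU (f x) := by
  apply Units.ext
  ext i j
  rw [Matrix.GeneralLinearGroup.map_apply, nU_val, nU_val]
  fin_cases i <;> fin_cases j <;> simp

lemma om_om : (om : GL (Fin 2) R) * om = 1 := by
  apply Units.ext
  rw [Units.val_mul, om_val, Units.val_one, Matrix.mul_fin_two, Matrix.one_fin_two]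
  simp

lemma nU_nU_neg (x : R) : (nU x : GL (Fin 2) R) * nU (-x) = 1 := by
  apply Units.ext
  rw [Units.val_mul, nU_val, nU_val, Units.val_one, Matrix.mul_fin_two, Matrix.one_fin_two]
  simp

lemma sc_one : (sc 1 : GL (Fin 2) R) = 1 := by
  apply Units.ext
  rw [sc_val, Units.val_one, Units.val_one, Matrix.one_fin_two]

lemma da_one : (da 1 : GL (Fin 2) R) = 1 := by
  apply Units.ext
  rw [da_val, Units.val_one, Units.val_one, Matrix.one_fin_two]

lemma da_mul (a b : Rˣ) : (da a : GL (Fin 2) R) * da b = da (a * b) := by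
  apply Units.ext
  rw [Units.val_mul, da_val, da_val, da_val, Matrix.mul_fin_two]
  simp

lemma da_nU (a : Rˣ) (x : R) : (da a : GL (Fin 2) R) * nU x = nU (a * x) * da a := by
  apply Units.ext
  rw [Units.val_mul, Units.val_mul, da_val, nU_val, nU_val, Matrix.mul_fin_two, Matrix.mul_fin_two]
  simp

/-- `da a * om * da p = da (a * p⁻¹) * (sc p * om)` -/
lemma da_om_da (a p : Rˣ) : (da a : GL (Fin 2) R) * om * da p = da (a * p⁻¹) * (sc p * om) := by
  apply Units.ext
  simp only [Units.val_mul, da_val, om_val, sc_val, Matrix.mul_fin_two]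
  simp

/-- `da p = om * da p⁻¹ * (sc p * om)` -/
lemma da_flip (p : Rˣ) : (da p : GL (Fin 2) R) = om * da p⁻¹ * (sc p * om) := by
  apply Units.ext
  simp only [Units.val_mul, da_val, om_val, sc_val, Matrix.mul_fin_two]
  simp

end mats

lemma om_mem_Kf : (om : GL (Fin 2) Af) ∈ Kf := by
  intro v i j
  have h0 : Valued.v ((0 : Af) v) ≤ 1 := (map_zero (Valued.v : Valuation (Kv v) ℤᵐ⁰)).le.trans zero_le_one
  have h1 : Valued.v ((1 : Af) v) ≤ 1 := (map_one (Valued.v : Valuation (Kv v) ℤᵐ⁰)).le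
  have hinv : ((om : GL (Fin 2) Af)⁻¹ : GL (Fin 2) Af) = om := inv_eq_of_mul_eq_one_left om_om
  rw [hinv, om_val]
  fin_cases i <;> fin_cases j <;> exact ⟨by first | exact h0 | exact h1, by first | exact h0 | exact h1⟩

lemma om_mem_GO {F : Type} [Field F] (v : Valuation F ℤᵐ⁰) : (om : GL (Fin 2) F) ∈ GO v := by
  intro i j
  have h0 : v (0 : F) ≤ 1 := (map_zero v).le.trans zero_le_one
  have h1 : v (1 : F) ≤ 1 := (map_one v).le
  have hinv : ((om : GL (Fin 2) F)⁻¹ : GL (Fin 2) F) = om := inv_eq_of_mul_eq_one_left om_om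
  rw [hinv, om_val]
  fin_cases i <;> fin_cases j <;> exact ⟨by first | exact h0 | exact h1, by first | exact h0 | exact h1⟩

lemma map_aF_mem_Kf (γ : GL (Fin 2) A) : Matrix.GeneralLinearGroup.map aF γ ∈ Kf := by
  intro v i j
  refine ⟨?_, ?_⟩
  · rw [Matrix.GeneralLinearGroup.map_apply]
    exact aF_le' _ v
  · rw [← map_inv, Matrix.GeneralLinearGroup.map_apply]
    exact aF_le' _ v

lemma atI_mk (h : GL (Fin 2) Ki) : atI h = ((1 : GL (Fin 2) Af), h) := rfl

lemma diagK_mk (γ : GL (Fin 2) K) : diagK γ = (Matrix.GeneralLinearGroup.map (algebraMap K Af) γ,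
    Matrix.GeneralLinearGroup.map (algebraMap K Ki) γ) := rfl

/-- invariance -/
lemma inv_E (E : GA → ℂ) (hE : LevelOne E) (γ : GL (Fin 2) K) (kf : GL (Fin 2) Af) (hkf : kf ∈ Kf)
    (z : Kiˣ) (k : GL (Fin 2) Ki) (hk : k ∈ GO (Valued.v : Valuation Ki ℤᵐ⁰)) (g g' : GA)
    (h : g' = diagK γ * g * (kf, sc z * k)) : E g' = E g := by
  rw [h, hE.right kf hkf z k hk, hE.left]

/-- the values of `E` -/
lemma exists_n (hCN : S_CN) (hRE : S_RE) (E : GA → ℂ) (hE : LevelOne E) (g : GA) :
    ∃ n : ℕ, E g = E (atI (da (tI ^ n))) := by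
  obtain ⟨gf, gi⟩ := g
  obtain ⟨γ, k1, hk1, hgf⟩ := hCN gf
  obtain ⟨de, n, z, k, hk, hh⟩ := hRE (Matrix.GeneralLinearGroup.map (algebraMap K Ki) γ⁻¹ * gi)
  refine ⟨n, ?_⟩
  have hdeF : Matrix.GeneralLinearGroup.map (algebraMap K Af)
      (Matrix.GeneralLinearGroup.map (algebraMap A K) de) = Matrix.GeneralLinearGroup.map aF de := by
    apply Units.ext
    ext i j
    rfl
  have hdeI : Matrix.GeneralLinearGroup.map (algebraMap K Ki)
      (Matrix.GeneralLinearGroup.map (algebraMap A K) de) = Matrix.GeneralLinearGroup.map aI de := by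
    apply Units.ext
    ext i j
    rfl
  apply inv_E E hE (γ * Matrix.GeneralLinearGroup.map (algebraMap A K) de)
    (Matrix.GeneralLinearGroup.map aF de⁻¹ * k1) (mul_mem (map_aF_mem_Kf _) hk1) z k hk
  rw [diagK_mk, atI_mk]
  refine Prod.ext ?_ ?_
  · simp only [Prod.fst_mul, map_mul, mul_one]
    rw [hgf, hdeF, map_inv]
    group
  · simp only [Prod.snd_mul, map_mul]
    rw [hdeI]
    rw [map_inv, inv_mul_eq_iff_eq_mul] at hh
    rw [hh]
    simp only [mul_assoc]

theorem t_UN : S_CN → S_RE → S_IF → S_UN := by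
  intro hCN hRE _ E hE hT g
  set e : ℕ → ℂ := fun n => E (atI (da (tI ^ n))) with he
  have h1K : (1 : GL (Fin 2) Ki) ∈ GO (Valued.v : Valuation Ki ℤᵐ⁰) := one_mem _
  have hom := om_mem_GO (Valued.v : Valuation Ki ℤᵐ⁰)
  have e0 : E 1 = e 0 := by
    rw [he]
    simp only [pow_zero]
    rw [da_one, map_one]
  -- the two first terms
  have hunip : ∀ (n : ℕ) (h : GL (Fin 2) Ki), E (atI (nU ((tI ^ n : Kiˣ) : Ki) * h)) = E (atI h) := by
    intro n h
    apply inv_E E hE (nU (algebraMap A K (Polynomial.X ^ n)))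
      (Matrix.GeneralLinearGroup.map aF (nU (-(Polynomial.X ^ n)))) (map_aF_mem_Kf _) 1 1 h1K
    rw [diagK_mk, atI_mk, atI_mk, sc_one]
    refine Prod.ext ?_ ?_
    · simp only [Prod.fst_mul, mul_one]
      rw [map_nU, map_nU]
      have h2 : aF (-(Polynomial.X ^ n)) = -(algebraMap K Af (algebraMap A K (Polynomial.X ^ n))) := by
        rw [map_neg]; rfl
      rw [h2, nU_nU_neg]
    · simp only [Prod.snd_mul, mul_one]
      rw [map_nU]
      congr 2
      rw [map_pow, map_pow, RatFunc.algebraMap_X, Units.val_pow_eq_pow_val]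
      rfl
  have hflip : E (atI (da pI)) = e 1 := by
    rw [he]
    simp only [pow_one]
    apply inv_E E hE om om om_mem_Kf pI om hom
    rw [diagK_mk, atI_mk, atI_mk, map_om, map_om]
    refine Prod.ext ?_ ?_
    · simp only [Prod.fst_mul, mul_one]
      rw [om_om]
    · simp only [Prod.snd_mul]
      have h2 : (tI : Kiˣ) = pI⁻¹ := by unfold pI; rw [inv_inv]
      rw [h2, ← da_flip]
  have hrec : ∀ n : ℕ, 3 * e n = 2 * E (atI (da (tI ^ n * pI))) + e (n + 1) := by
    intro n
    have h1 := hT (atI (da (tI ^ n)))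
    unfold Ti at h1
    rw [← map_mul, ← map_mul, ← map_mul, da_mul, ← mul_assoc, da_nU, mul_one, mul_assoc, da_mul,
      hunip n, ← mul_assoc, da_om_da] at h1
    have h2 : E (atI (da (tI ^ n * pI⁻¹) * (sc pI * om))) = e (n + 1) := by
      rw [he]
      simp only
      apply inv_E E hE 1 1 (one_mem _) pI om hom
      rw [map_one, one_mul, atI_mk, atI_mk]
      refine Prod.ext ?_ ?_
      · simp only [Prod.fst_mul, mul_one]
      · simp only [Prod.snd_mul]
        congr 2
        unfold pI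
        rw [inv_inv, pow_succ]
    rw [h2] at h1
    show 3 * E (atI (da (tI ^ n))) = _
    rw [← h1]
    ring
  have hconst : ∀ n : ℕ, e n = e 0 ∧ e (n + 1) = e 0 := by
    intro n
    induction n with
    | zero =>
      refine ⟨rfl, ?_⟩
      have h1 := hrec 0
      rw [pow_zero, one_mul, hflip] at h1
      have h2 : e (0 + 1) = e 1 := rfl
      rw [h2] at h1 ⊢
      linear_combination -(1 / 3 : ℂ) * h1
    | succ n ih =>
      refine ⟨ih.2, ?_⟩
      have h1 := hrec (n + 1)
      have h2 : (tI ^ (n + 1) * pI : Kiˣ) = tI ^ n := by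
        unfold pI
        rw [pow_succ, mul_assoc, mul_inv_cancel, mul_one]
      rw [h2] at h1
      have h3 : E (atI (da (tI ^ n))) = e n := rfl
      rw [h3, ih.1, ih.2] at h1
      linear_combination -h1
  obtain ⟨n, hn⟩ := exists_n hCN hRE E hE g
  rw [hn, e0]
  exact (hconst n).1

end Pool.Agent.T3H29.LL
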